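import Pool.Agent.Y264.QR.Stm2
import Pool.Agent.Y540.QE.Sub
import Pool.Agent.Y274.QE.Fin
import Pool.Agent.Y960.QE.Int
import Pool.Agent.Y708.QE.Gr
import Pool.Agent.Y93.QE.W1

/-! Project QR (helper264), job QR-LOC: small parallelograms are almost isometric squares. -/

set_option autoImplicit false
set_option linter.unusedSectionVars false

open Set Filter Topology MeasureTheory
open scoped Real ContDiff ENNReal

noncomputable section

namespace Pool.Agent.Y183.QR.Loc

open Pool.Agent.Y262.QE Pool.Agent.Y264.QR Pool.Agent.Y708.QE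

/-! ### Linear algebra -/

lemma norm_grd (A : ℂ →L[ℝ] ℂ) (P : ℂ →L[ℝ] ℝ) : ‖grd A P‖ = ‖P.comp A.inverse‖ := by
  have h : P.comp A.inverse = innerSL ℝ (grd A P) := by
    refine ContinuousLinearMap.ext fun v => ?_
    rw [ContinuousLinearMap.comp_apply, ← inner_grd]
    rfl
  rw [h, innerSL_apply_norm]

lemma comp_inv {A : ℂ →L[ℝ] ℂ} (hA : A.det ≠ 0) : A.comp A.inverse = ContinuousLinearMap.id ℝ ℂ :=
  ContinuousLinearMap.ext fun v => inv_apply hA v

lemma det_inv {A : ℂ →L[ℝ] ℂ} (hA : A.det ≠ 0) : A.det * A.inverse.det = 1 := by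
  have h := congrArg ContinuousLinearMap.det (comp_inv hA)
  unfold ContinuousLinearMap.det at h ⊢
  change LinearMap.det ((A : ℂ →ₗ[ℝ] ℂ).comp (A.inverse : ℂ →ₗ[ℝ] ℂ)) =
    LinearMap.det (LinearMap.id : ℂ →ₗ[ℝ] ℂ) at h
  rw [LinearMap.det_comp, LinearMap.det_id] at h
  exact h

lemma bi_b {A : ℂ →L[ℝ] ℂ} (hA : A.det ≠ 0) (z y : ℂ) : A (z + A.inverse y - z) = y := by
  rw [add_sub_cancel_left, inv_apply hA]

lemma b_bi {A : ℂ →L[ℝ] ℂ} (hA : A.det ≠ 0) (z w : ℂ) : z + A.inverse (A (w - z)) = w := by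
  rw [inv_apply' hA, add_sub_cancel]

lemma img_eq {A : ℂ →L[ℝ] ℂ} (hA : A.det ≠ 0) (z : ℂ) (E : Set ℂ) :
    (fun y => z + A.inverse y) '' E = (fun w => A (w - z)) ⁻¹' E := by
  ext w
  constructor
  · rintro ⟨y, hy, rfl⟩
    rw [mem_preimage, bi_b hA]
    exact hy
  · intro hw
    exact ⟨A (w - z), hw, b_bi hA z w⟩

lemma b_inj {A : ℂ →L[ℝ] ℂ} (hA : A.det ≠ 0) (z : ℂ) :
    Function.Injective fun y => z + A.inverse y := by
  intro y y' h
  have h1 := congrArg (fun w => A (w - z)) h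
  simp only [bi_b hA] at h1
  exact h1

section

variable {M : Type} [MetricSpace M] [CompactSpace M] [MeasurableSpace M] [BorelSpace M]
  {μ : Measure M} {D : Data M}

lemma φψ (S : D.IsSurf μ) {i : Fin D.N} {w : ℂ} (hw : w ∈ D.T i) :
    D.ψ i w ∈ D.U i ∧ D.φ i (D.ψ i w) = w := by
  obtain ⟨x, hx, rfl⟩ := hw
  rw [S.left i x hx]
  exact ⟨hx, rfl⟩

/-- the neighbourhood on which the metric is almost constant -/
lemma nbhd (S : D.IsSurf μ) (i : Fin D.N) {z : ℂ} (hz : z ∈ D.T i) {η : ℝ} (hη : 0 < η) :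
    ∃ V : Set ℂ, (∀ w ∈ V, w ∈ D.T i ∧ ‖(D.A i w).comp (D.A i z).inverse‖ ≤ 1 + η ∧
      ‖(D.A i z).comp (D.A i w).inverse‖ ≤ 1 + η ∧
      |(D.A i w).det| ≤ (1 + η) * |(D.A i z).det| ∧
      |(D.A i z).det| ≤ (1 + η) * |(D.A i w).det|) ∧ IsOpen V ∧ z ∈ V := by
  have hd := S.det i z hz
  have hd' : 0 < |(D.A i z).det| := abs_pos.2 hd
  have hA : ContinuousAt (D.A i) z := (S.contA i).continuousAt ((S.openT i).mem_nhds hz)
  have hinv : ContinuousAt (fun w => (D.A i w).inverse) z := by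
    have h1 := contDiffAt_map_inverse (𝕜 := ℝ) (n := 0)
      ((D.A i z).toContinuousLinearEquivOfDetNeZero hd)
    rw [(D.A i z).coe_toContinuousLinearEquivOfDetNeZero hd] at h1
    exact h1.continuousAt.comp hA
  have hid : ‖ContinuousLinearMap.id ℝ ℂ‖ < 1 + η := by
    have := ContinuousLinearMap.norm_id_le (𝕜 := ℝ) (E := ℂ)
    linarith
  have h1 : ∀ᶠ w in 𝓝 z, ‖(D.A i w).comp (D.A i z).inverse‖ < 1 + η := by
    have hc : ContinuousAt (fun w => ‖(D.A i w).comp (D.A i z).inverse‖) z :=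
      (hA.clm_comp continuousAt_const).norm
    refine hc.eventually_lt continuousAt_const ?_
    rw [comp_inv hd]
    exact hid
  have h2 : ∀ᶠ w in 𝓝 z, ‖(D.A i z).comp (D.A i w).inverse‖ < 1 + η := by
    have hc : ContinuousAt (fun w => ‖(D.A i z).comp (D.A i w).inverse‖) z :=
      (continuousAt_const.clm_comp hinv).norm
    refine hc.eventually_lt continuousAt_const ?_
    rw [comp_inv hd]
    exact hid
  have hdet : ContinuousAt (fun w => |(D.A i w).det|) z :=
    (ContinuousLinearMap.continuous_det.continuousAt.comp hA).abs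
  have h3 : ∀ᶠ w in 𝓝 z, |(D.A i w).det| < (1 + η) * |(D.A i z).det| := by
    refine hdet.eventually_lt continuousAt_const ?_
    nlinarith
  have h4 : ∀ᶠ w in 𝓝 z, |(D.A i z).det| < (1 + η) * |(D.A i w).det| := by
    refine ContinuousAt.eventually_lt continuousAt_const (continuousAt_const.mul hdet) ?_
    nlinarith
  have h0 : ∀ᶠ w in 𝓝 z, w ∈ D.T i := (S.openT i).mem_nhds hz
  have h5 := (h0.and h1).and ((h2.and h3).and h4)
  obtain ⟨V, hV1, hV2, hV3⟩ := eventually_nhds_iff.1 h5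
  exact ⟨V, fun w hw => ⟨(hV1 w hw).1.1, (hV1 w hw).1.2.le, (hV1 w hw).2.1.1.le,
    (hV1 w hw).2.1.2.le, (hV1 w hw).2.2.le⟩, hV2, hV3⟩

/-- measurability of the images -/
lemma meas_img (S : D.IsSurf μ) (i : Fin D.N) {W : Set ℂ} (hW : MeasurableSet W)
    (hWT : W ⊆ D.T i) : MeasurableSet (D.ψ i '' W) ∧ D.ψ i '' W ⊆ D.U i ∧
      D.φ i '' (D.ψ i '' W) = W := by
  have h0 : D.ψ i '' W = D.U i ∩ D.φ i ⁻¹' W := by
    ext x
    constructor
    · rintro ⟨w, hw, rfl⟩
      obtain ⟨h1, h2⟩ := φψ S (hWT hw)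
      refine ⟨h1, ?_⟩
      rw [mem_preimage, h2]
      exact hw
    · rintro ⟨h1, h2⟩
      exact ⟨D.φ i x, h2, S.left i x h1⟩
  refine ⟨?_, ?_, ?_⟩
  · have h1 : D.U i ∩ D.φ i ⁻¹' W = Subtype.val '' ((D.U i).domRestrict (D.φ i) ⁻¹' W) := by
      ext x
      constructor
      · rintro ⟨h, h'⟩
        exact ⟨⟨x, h⟩, h', rfl⟩
      · rintro ⟨⟨y, hy⟩, h', rfl⟩
        exact ⟨hy, h'⟩
    rw [h0, h1]
    refine (S.openU i).measurableSet.subtype_image ?_
    exact (continuousOn_iff_continuous_domRestrict.1 (S.contφ i)).measurable hW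
  · rw [h0]
    exact inter_subset_left
  · ext w
    constructor
    · rintro ⟨x, ⟨w', hw', rfl⟩, rfl⟩
      rw [(φψ S (hWT hw')).2]
      exact hw'
    · intro hw
      exact ⟨D.ψ i w, ⟨w, hw, rfl⟩, (φψ S (hWT hw)).2⟩

/-- integration over the image of a set under the chart -/
lemma lint_chart (S : D.IsSurf μ) (i : Fin D.N) {s : Set M} (hs : MeasurableSet s)
    (hsub : s ⊆ D.U i) {g : M → ENNReal} (hg : Measurable g) :
    ∫⁻ x in s, g x ∂μ = ∫⁻ w in D.φ i '' s, ENNReal.ofReal |(D.A i w).det| * g (D.ψ i w) := by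
  rw [← Pool.Agent.Y960.QE.map_nu S i hsub hs,
    lintegral_map' hg.aemeasurable (Pool.Agent.Y960.QE.aemψ' S i hsub hs), Pool.Agent.Y960.QE.nu]
  have h2 := lintegral_withDensity_eq_lintegral_mul₀ (Pool.Agent.Y960.QE.aemDet S i hsub hs)
    (hg.comp_aemeasurable (Pool.Agent.Y960.QE.aemψ S i hsub hs))
  exact h2

/-- integration over the image of a set in the coordinates of the square -/
lemma lint_img (S : D.IsSurf μ) (i : Fin D.N) {A : ℂ →L[ℝ] ℂ} (hA : A.det ≠ 0) (z : ℂ)
    {E : Set ℂ} (hE : MeasurableSet E) (hET : ∀ y ∈ E, z + A.inverse y ∈ D.T i)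
    {g : M → ENNReal} (hg : Measurable g) :
    ∫⁻ x in (fun y => D.ψ i (z + A.inverse y)) '' E, g x ∂μ =
      ∫⁻ y in E, ENNReal.ofReal |A.inverse.det| *
        (ENNReal.ofReal |(D.A i (z + A.inverse y)).det| * g (D.ψ i (z + A.inverse y))) := by
  have hW : MeasurableSet ((fun y => z + A.inverse y) '' E) := by
    rw [img_eq hA]
    exact (A.continuous.comp (continuous_id.sub continuous_const)).measurable hE
  have hWT : (fun y => z + A.inverse y) '' E ⊆ D.T i := by
    rintro w ⟨y, hy, rfl⟩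
    exact hET y hy
  obtain ⟨h1, h2, h3⟩ := meas_img S i hW hWT
  have h4 : (fun y => D.ψ i (z + A.inverse y)) '' E =
      D.ψ i '' ((fun y => z + A.inverse y) '' E) := by
    rw [image_image]
  rw [h4, lint_chart S i h1 h2 hg, h3]
  exact lintegral_image_eq_lintegral_abs_det_fderiv_mul volume hE
    (f := fun y => z + A.inverse y) (f' := fun _ => A.inverse)
    (fun y _ => (A.inverse.hasFDerivAt.const_add z).hasFDerivWithinAt) ((b_inj hA z).injOn)
    (fun w => ENNReal.ofReal |(D.A i w).det| * g (D.ψ i w))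

/-- the boundary of the square is a null set -/
lemma null_bdr (r : ℝ) : volume (Sq 0 r \ interior (Sq 0 r)) = 0 := by
  have hsub : Sq 0 r \ interior (Sq 0 r) ⊆ ({z : ℂ | z.re = r} ∪ {z : ℂ | z.re = -r}) ∪
      ({z : ℂ | z.im = r} ∪ {z : ℂ | z.im = -r}) := by
    rintro z ⟨⟨h1, h2⟩, h3⟩
    rw [Complex.zero_re, sub_zero] at h1
    rw [Complex.zero_im, sub_zero] at h2
    by_contra hcon
    simp only [mem_union, mem_ofPred_eq, not_or] at hcon
    obtain ⟨⟨h4, h5⟩, h6, h7⟩ := hcon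
    apply h3
    refine mem_interior.2 ⟨_, ?_, Pool.Agent.Y93.QE.osq_open 0 r, ?_⟩
    · rintro w ⟨h8, h9⟩
      exact ⟨h8.le, h9.le⟩
    · have key : ∀ t : ℝ, |t| ≤ r → t ≠ r → t ≠ -r → |t| < r := by
        intro t ht h8 h9
        refine lt_of_le_of_ne ht fun h10 => ?_
        rcases abs_choice t with h11 | h11
        · exact h8 (h11.symm.trans h10)
        · exact h9 (by linarith)
      refine ⟨?_, ?_⟩
      · rw [Complex.zero_re, sub_zero]
        exact key _ h1 h4 h5
      · rw [Complex.zero_im, sub_zero]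
        exact key _ h2 h6 h7
  refine measure_mono_null hsub ?_
  rw [measure_union_null_iff, measure_union_null_iff, measure_union_null_iff]
  exact ⟨⟨Pool.Agent.Y540.QE.null_re _, Pool.Agent.Y540.QE.null_re _⟩,
    Pool.Agent.Y540.QE.null_im _, Pool.Agent.Y540.QE.null_im _⟩

/-- the functional on the surface which belongs to a functional on the square -/
lemma fct (S : D.IsSurf μ) (i : Fin D.N) {A : ℂ →L[ℝ] ℂ} (hA : A.det ≠ 0) (z : ℂ)
    {E : Set ℂ} (hE : MeasurableSet E) (hET : ∀ y ∈ E, z + A.inverse y ∈ D.T i)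
    {C₀ : ℝ} (hC₀ : ∀ y ∈ E, |A.det| ≤ C₀ * |(D.A i (z + A.inverse y)).det|)
    {κ : ℂ → ℝ} (hκ : Measurable κ) (hκC : ∃ C, ∀ z, |κ z| ≤ C) :
    ∃ κ' : M → ℝ, MemLp κ' 2 μ ∧ ∀ F : M → ℝ, Continuous F →
      ∫ x, F x * κ' x ∂μ = ∫ y in E, F (D.ψ i (z + A.inverse y)) * κ y := by
  have : IsFiniteMeasure μ := (Pool.Agent.Y274.QE.Fin.fin M μ D S).1
  obtain ⟨C, hC⟩ := hκC
  have hW : MeasurableSet ((fun y => z + A.inverse y) '' E) := by
    rw [img_eq hA]
    exact (A.continuous.comp (continuous_id.sub continuous_const)).measurable hE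
  have hWT : (fun y => z + A.inverse y) '' E ⊆ D.T i := by
    rintro w ⟨y, hy, rfl⟩
    exact hET y hy
  obtain ⟨h1, h2, h3⟩ := meas_img S i hW hWT
  obtain ⟨s, hs⟩ : ∃ s : Set M, s = D.ψ i '' ((fun y => z + A.inverse y) '' E) := ⟨_, rfl⟩
  rw [← hs] at h1 h2 h3
  obtain ⟨k, hk⟩ : ∃ k : M → ℝ, k = fun x =>
      κ (A (D.φ i x - z)) * (|A.det| * |(D.A i (D.φ i x)).det|⁻¹) := ⟨_, rfl⟩
  have hφs : ContinuousOn (D.φ i) s := (S.contφ i).mono h2
  have hkm : AEStronglyMeasurable k (μ.restrict s) := by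
    have e1 : AEMeasurable (fun x => A (D.φ i x - z)) (μ.restrict s) :=
      (A.continuous.comp_continuousOn (hφs.sub continuousOn_const)).aemeasurable h1
    have e2 : ContinuousOn (fun x => |(D.A i (D.φ i x)).det|⁻¹) s := by
      refine ContinuousOn.inv₀ ?_ fun x hx => ?_
      · exact (Pool.Agent.Y960.QE.contDet S i).comp hφs fun x hx => mem_T (h2 hx)
      · exact (abs_pos.2 (S.det i _ (mem_T (h2 hx)))).ne'
    rw [hk]
    exact ((hκ.comp_aemeasurable e1).mul
      ((continuousOn_const.mul e2).aemeasurable h1)).aestronglyMeasurable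
  have hks : AEStronglyMeasurable (s.indicator k) μ := (aestronglyMeasurable_indicator_iff h1).2 hkm
  have hC0 : 0 ≤ C := (abs_nonneg _).trans (hC 0)
  have hbd : ∀ x, ‖s.indicator k x‖ ≤ C * |C₀| := by
    intro x
    by_cases hx : x ∈ s
    · rw [indicator_of_mem hx, hk, Real.norm_eq_abs, abs_mul]
      refine mul_le_mul (hC _) ?_ (abs_nonneg _) hC0
      have h5 : D.φ i x ∈ (fun y => z + A.inverse y) '' E := by
        rw [← h3]
        exact ⟨x, hx, rfl⟩
      obtain ⟨y, hy, hyx⟩ := h5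
      have h6 := hC₀ y hy
      simp only at hyx
      rw [hyx] at h6
      have h7 : 0 < |(D.A i (D.φ i x)).det| := abs_pos.2 (S.det i _ (mem_T (h2 hx)))
      rw [abs_of_nonneg (by positivity), ← div_eq_mul_inv, div_le_iff₀ h7]
      exact h6.trans (mul_le_mul_of_nonneg_right (le_abs_self _) h7.le)
    · rw [indicator_of_notMem hx, norm_zero]
      positivity
  refine ⟨s.indicator k, MemLp.of_bound hks _ (Eventually.of_forall hbd), fun F hF => ?_⟩
  have e1 : ∫ x, F x * s.indicator k x ∂μ = ∫ x in s, F x * s.indicator k x ∂μ := by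
    rw [setIntegral_eq_integral_of_forall_compl_eq_zero]
    intro x hx
    rw [indicator_of_notMem hx, mul_zero]
  rw [e1, (Pool.Agent.Y960.QE.int_chart M μ D S i).2 s h1 h2 (fun x => F x * s.indicator k x)
    (hF.aestronglyMeasurable.mul hks), h3]
  have e2 := integral_image_eq_integral_abs_det_fderiv_smul volume hE
    (f := fun y => z + A.inverse y) (f' := fun _ => A.inverse)
    (fun y _ => (A.inverse.hasFDerivAt.const_add z).hasFDerivWithinAt) ((b_inj hA z).injOn)
    (fun w => F (D.ψ i w) * s.indicator k (D.ψ i w) * |(D.A i w).det|)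
  rw [e2]
  refine setIntegral_congr_fun hE fun y hy => ?_
  obtain ⟨h5, h6⟩ := φψ S (hET y hy)
  have h7 : D.ψ i (z + A.inverse y) ∈ s := by
    rw [hs]
    exact ⟨_, ⟨y, hy, rfl⟩, rfl⟩
  have h8 : 0 < |(D.A i (z + A.inverse y)).det| := abs_pos.2 (S.det i _ (hET y hy))
  have h9 : |A.det| * |A.inverse.det| = 1 := by
    rw [← abs_mul, det_inv hA, abs_one]
  simp only [smul_eq_mul]
  rw [indicator_of_mem h7, hk]
  simp only
  rw [h6, bi_b hA]
  calc |A.inverse.det| * (F (D.ψ i (z + A.inverse y)) *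
        (κ y * (|A.det| * |(D.A i (z + A.inverse y)).det|⁻¹)) * |(D.A i (z + A.inverse y)).det|) =
      (|A.det| * |A.inverse.det|) * (|(D.A i (z + A.inverse y)).det|⁻¹ *
        |(D.A i (z + A.inverse y)).det|) * (F (D.ψ i (z + A.inverse y)) * κ y) := by ring
    _ = F (D.ψ i (z + A.inverse y)) * κ y := by
      rw [h9, inv_mul_cancel₀ h8.ne', one_mul, one_mul]

/-- extension by zero -/
lemma lift (S : D.IsSurf μ) (i : Fin D.N) {A : ℂ →L[ℝ] ℂ} (hA : A.det ≠ 0) (z : ℂ)
    {E : Set ℂ} (hE : IsCompact E) (hET : ∀ y ∈ E, z + A.inverse y ∈ D.T i) {f : ℂ → ℝ}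
    (hf : ContDiff ℝ 1 f) (hfE : tsupport f ⊆ E) :
    ∃ F : M → ℝ, D.C1 F ∧ (∀ y ∈ E, F (D.ψ i (z + A.inverse y)) = f y) ∧
      ∀ x, x ∉ (fun y => D.ψ i (z + A.inverse y)) '' E → F x = 0 := by
  obtain ⟨F, hF⟩ : ∃ F : M → ℝ, F = (D.U i).indicator fun x => f (A (D.φ i x - z)) := ⟨_, rfl⟩
  obtain ⟨K, hK⟩ : ∃ K : Set M, K = (fun y => D.ψ i (z + A.inverse y)) '' tsupport f := ⟨_, rfl⟩
  have hb : Continuous fun y => z + A.inverse y := continuous_const.add A.inverse.continuous
  have hKc : IsCompact K := by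
    rw [hK]
    refine (hE.of_isClosed_subset (isClosed_tsupport f) hfE).image_of_continuousOn ?_
    exact (S.contψ i).comp hb.continuousOn fun y hy => hET y (hfE hy)
  have h0 : ∀ x, x ∉ K → F x = 0 := by
    intro x hx
    rw [hF]
    by_cases hxU : x ∈ D.U i
    · rw [indicator_of_mem hxU]
      refine image_eq_zero_of_notMem_tsupport fun h => hx ?_
      rw [hK]
      refine ⟨_, h, ?_⟩
      simp only
      rw [b_bi hA, S.left i x hxU]
    · exact indicator_of_notMem hxU _
  refine ⟨F, ?_, ?_, ?_⟩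
  · intro j w hw
    apply ContDiffAt.contDiffWithinAt
    have hwT := hw
    obtain ⟨x, hxj, rfl⟩ := hw
    have hψ : ContinuousAt (D.ψ j) (D.φ j x) := (S.contψ j).continuousAt ((S.openT j).mem_nhds hwT)
    have hψx : D.ψ j (D.φ j x) = x := S.left j x hxj
    have hψt : Tendsto (D.ψ j) (𝓝 (D.φ j x)) (𝓝 x) := by
      have := hψ.tendsto
      rwa [hψx] at this
    by_cases hx : x ∈ D.U i
    · have h1 : ∀ᶠ y in 𝓝 x, F y = f (A (D.φ i y - z)) := by
        filter_upwards [(S.openU i).mem_nhds hx] with y hy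
        rw [hF, indicator_of_mem hy]
      have h2 : (fun w => F (D.ψ j w)) =ᶠ[𝓝 (D.φ j x)] fun w => f (A (D.φ i (D.ψ j w) - z)) :=
        hψt.eventually h1
      refine ContDiffAt.congr_of_eventuallyEq ?_ h2
      have h3 : ContDiff ℝ 1 fun w : ℂ => f (A (w - z)) :=
        hf.comp (A.contDiff.comp (contDiff_id.sub contDiff_const))
      exact h3.contDiffAt.comp (D.φ j x) (S.tr j i x hxj hx).1
    · have hxK : x ∉ K := by
        rw [hK]
        rintro ⟨y, hy, rfl⟩
        exact hx (φψ S (hET y (hfE hy))).1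
      have h1 : ∀ᶠ y in 𝓝 x, F y = 0 := by
        filter_upwards [hKc.isClosed.isOpen_compl.mem_nhds hxK] with y hy
        exact h0 y hy
      exact ContDiffAt.congr_of_eventuallyEq (contDiffAt_const (c := (0 : ℝ))) (hψt.eventually h1)
  · intro y hy
    obtain ⟨h5, h6⟩ := φψ S (hET y hy)
    rw [hF, indicator_of_mem h5, h6, bi_b hA]
  · intro x hx
    refine h0 x fun h => hx ?_
    rw [hK] at h
    exact image_mono hfE h

/-- small parallelograms are almost isometric squares -/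
theorem t : StLoc := by
  intro M _ _ _ _ μ D S i z hz η hη
  obtain ⟨V, hV, hVo, hzV⟩ := nbhd S i hz hη
  obtain ⟨A, hAdef⟩ : ∃ A : ℂ →L[ℝ] ℂ, A = D.A i z := ⟨_, rfl⟩
  have hA : A.det ≠ 0 := by
    rw [hAdef]
    exact S.det i z hz
  rw [← hAdef] at hV ⊢
  have hb : Continuous fun y => z + A.inverse y := continuous_const.add A.inverse.continuous
  obtain ⟨O, hO⟩ : ∃ O : Set ℂ, O = (fun y => z + A.inverse y) ⁻¹' V := ⟨_, rfl⟩
  have hOo : IsOpen O := by
    rw [hO]
    exact hVo.preimage hb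
  have h0O : (0 : ℂ) ∈ O := by
    rw [hO, mem_preimage, map_zero, add_zero]
    exact hzV
  have hOV : ∀ y ∈ O, z + A.inverse y ∈ V := by
    intro y hy
    rw [hO] at hy
    exact hy
  obtain ⟨ρ, hρ, hρO⟩ := Metric.isOpen_iff.1 hOo 0 h0O
  refine ⟨ρ / 4, by positivity, fun r hr hr4 => ?_⟩
  have hSO : Sq 0 r ⊆ O := by
    refine (Pool.Agent.Y93.QE.sq_sub_ball 0 r).trans fun y hy => hρO ?_
    rw [Metric.mem_closedBall] at hy
    rw [Metric.mem_ball]
    linarith
  have hET : ∀ y ∈ Sq 0 r, z + A.inverse y ∈ D.T i := fun y hy => (hV _ (hOV y (hSO hy))).1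
  have hOT : ∀ y ∈ O, z + A.inverse y ∈ D.T i := fun y hy => (hV _ (hOV y hy)).1
  have hSqm : MeasurableSet (Sq 0 r) := (Pool.Agent.Y93.QE.sq_closed 0 r).measurableSet
  have hdd : |A.det| * |A.inverse.det| = 1 := by
    rw [← abs_mul, det_inv hA, abs_one]
  have hd0 : 0 < |A.det| := abs_pos.2 hA
  have hdi0 : 0 < |A.inverse.det| := by
    rcases (abs_nonneg A.inverse.det).eq_or_lt with h | h
    · rw [← h, mul_zero] at hdd
      exact absurd hdd (by norm_num)
    · exact h
  refine ⟨hET, ?_⟩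
  constructor
  · exact (S.contψ i).comp hb.continuousOn hET
  · intro y hy y' hy' h
    have h1 := congrArg (D.φ i) h
    simp only at h1
    rw [(φψ S (hET y hy)).2, (φψ S (hET y' hy')).2] at h1
    exact b_inj hA z h1
  · have h1 : (fun y => D.ψ i (z + A.inverse y)) '' interior (Sq 0 r) =
        D.U i ∩ D.φ i ⁻¹' ((fun w => A (w - z)) ⁻¹' interior (Sq 0 r)) := by
      ext x
      constructor
      · rintro ⟨y, hy, rfl⟩
        obtain ⟨h5, h6⟩ := φψ S (hET y (interior_subset hy))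
        refine ⟨h5, ?_⟩
        rw [mem_preimage, mem_preimage, h6, bi_b hA]
        exact hy
      · rintro ⟨h5, h6⟩
        refine ⟨_, h6, ?_⟩
        simp only
        rw [b_bi hA, S.left i x h5]
    rw [h1]
    exact (S.contφ i).isOpen_inter_preimage (S.openU i)
      (isOpen_interior.preimage (A.continuous.comp (continuous_id.sub continuous_const)))
  · have h1 := lint_img S i hA z (E := Sq 0 r \ interior (Sq 0 r))
      (hSqm.diff isOpen_interior.measurableSet) (fun y hy => hET y hy.1)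
      (g := fun _ => 1) measurable_const
    rw [lintegral_one, Measure.restrict_apply_univ] at h1
    rw [h1]
    exact setLIntegral_measure_zero _ _ (null_bdr r)
  · intro g hg
    rw [lint_img S i hA z hSqm hET hg]
    constructor
    · rw [← lintegral_const_mul' _ _ ENNReal.ofReal_ne_top]
      refine setLIntegral_mono' hSqm fun y hy => ?_
      rw [← mul_assoc]
      refine mul_le_mul' ?_ le_rfl
      rw [← ENNReal.ofReal_mul (abs_nonneg _)]
      refine ENNReal.ofReal_le_ofReal ?_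
      have h1 := (hV _ (hOV y (hSO hy))).2.2.2.1
      calc |A.inverse.det| * |(D.A i (z + A.inverse y)).det| ≤
          |A.inverse.det| * ((1 + η) * |A.det|) := mul_le_mul_of_nonneg_left h1 hdi0.le
        _ = (1 + η) * (|A.det| * |A.inverse.det|) := by ring
        _ = 1 + η := by rw [hdd, mul_one]
    · rw [← lintegral_const_mul' _ _ ENNReal.ofReal_ne_top]
      refine setLIntegral_mono' hSqm fun y hy => ?_
      rw [← mul_assoc, ← mul_assoc]
      have h1 := (hV _ (hOV y (hSO hy))).2.2.2.2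
      have h2 : (1 : ENNReal) ≤ ENNReal.ofReal (1 + η) * ENNReal.ofReal |A.inverse.det| *
          ENNReal.ofReal |(D.A i (z + A.inverse y)).det| := by
        rw [← ENNReal.ofReal_mul (by positivity), ← ENNReal.ofReal_mul (by positivity)]
        rw [← ENNReal.ofReal_one]
        refine ENNReal.ofReal_le_ofReal ?_
        calc (1 : ℝ) = |A.inverse.det| * |A.det| := by rw [mul_comm, hdd]
          _ ≤ |A.inverse.det| * ((1 + η) * |(D.A i (z + A.inverse y)).det|) :=
            mul_le_mul_of_nonneg_left h1 hdi0.le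
          _ = _ := by ring
      calc g (D.ψ i (z + A.inverse y)) = 1 * g (D.ψ i (z + A.inverse y)) := (one_mul _).symm
        _ ≤ _ := mul_le_mul' h2 le_rfl
  · intro κ hκ hκC
    exact fct S i hA z hSqm hET (C₀ := 1 + η) (fun y hy => (hV _ (hOV y (hSO hy))).2.2.2.2) hκ hκC
  · refine ⟨O, hOo, hSO, fun F hF => ⟨?_, fun y hy => ?_⟩⟩
    · exact (hF i).comp ((contDiff_const.add A.inverse.contDiff).contDiffOn) hOT
    · obtain ⟨h5, h6⟩ := φψ S (hOT y hy)
      obtain ⟨P, hP⟩ : ∃ P : ℂ →L[ℝ] ℝ, P = fderiv ℝ (fun w => F (D.ψ i w)) (z + A.inverse y) :=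
        ⟨_, rfl⟩
      have h7 : ‖D.gr F (D.ψ i (z + A.inverse y))‖ =
          ‖P.comp (D.A i (z + A.inverse y)).inverse‖ := by
        rw [norm_gr S hF h5, ← norm_grd]
        unfold Data.gc Data.dc
        rw [h6, hP]
      have h8 : fderiv ℝ (fun y => F (D.ψ i (z + A.inverse y))) y = P.comp A.inverse := by
        have h9 : DifferentiableAt ℝ (fun w => F (D.ψ i w)) (z + A.inverse y) := by
          have := diff_at S hF h5
          rwa [h6] at this
        have h10 : HasFDerivAt (fun y => z + A.inverse y) A.inverse y :=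
          A.inverse.hasFDerivAt.const_add z
        rw [hP]
        exact (HasFDerivAt.comp y h9.hasFDerivAt h10).fderiv
      rw [h7, h8]
      have h11 := hV _ (hOV y hy)
      have hAw : (D.A i (z + A.inverse y)).det ≠ 0 := S.det i _ h11.1
      constructor
      · have e : P.comp A.inverse = (P.comp (D.A i (z + A.inverse y)).inverse).comp
            ((D.A i (z + A.inverse y)).comp A.inverse) := by
          refine ContinuousLinearMap.ext fun v => ?_
          simp only [ContinuousLinearMap.comp_apply]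
          rw [inv_apply' hAw]
        rw [e, mul_comm (1 + η)]
        exact (ContinuousLinearMap.opNorm_comp_le _ _).trans
          (mul_le_mul_of_nonneg_left h11.2.1 (norm_nonneg _))
      · have e : P.comp (D.A i (z + A.inverse y)).inverse = (P.comp A.inverse).comp
            (A.comp (D.A i (z + A.inverse y)).inverse) := by
          refine ContinuousLinearMap.ext fun v => ?_
          simp only [ContinuousLinearMap.comp_apply]
          rw [inv_apply' hA]
        rw [e, mul_comm (1 + η)]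
        exact (ContinuousLinearMap.opNorm_comp_le _ _).trans
          (mul_le_mul_of_nonneg_left h11.2.2.1 (norm_nonneg _))
  · intro f hf hfs
    exact lift S i hA z (Pool.Agent.Y93.QE.sq_cpt 0 r) hET hf (hfs.trans interior_subset)

end

end Pool.Agent.Y183.QR.Loc
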