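import Pool.Agent.Y264.QR.Stm2
import Pool.Agent.Y540.QE.Sub

/-! Project QR (helper264), job QR-NEU: the sharp spectral inequality on a square. -/

set_option autoImplicit false

open Set Filter Topology MeasureTheory
open scoped Real ContDiff

noncomputable section

namespace Pool.Agent.Y183.QR.Neu

open Pool.Agent.Y262.QE Pool.Agent.Y264.QR Pool.Agent.Y540.QE

lemma ck_cont (k : ℕ) : Continuous (ck k) := by
  by_cases h : k = 0
  · have : ck k = fun _ => (1 : ℝ) := by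
      funext x
      simp [ck, h]
    rw [this]
    exact continuous_const
  · have : ck k = fun x => Real.sqrt 2 * Real.cos (k * π * x) := by
      funext x
      simp [ck, h]
    rw [this]
    exact continuous_const.mul (Real.continuous_cos.comp (continuous_const.mul continuous_id))

lemma ck_bdd (k : ℕ) (x : ℝ) : |ck k x| ≤ 2 := by
  unfold ck
  split_ifs with h
  · norm_num
  · rw [abs_mul, abs_of_nonneg (Real.sqrt_nonneg 2)]
    have h1 : Real.sqrt 2 ≤ 2 := by
      rw [Real.sqrt_le_left (by norm_num)]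
      norm_num
    calc Real.sqrt 2 * |Real.cos (k * π * x)| ≤ 2 * 1 :=
          mul_le_mul h1 (Real.abs_cos_le_one _) (abs_nonneg _) (by norm_num)
      _ = 2 := by norm_num

/-- the inequality on the unit square -/
theorem core (hC : StCos) {f g px py : ℝ → ℝ → ℝ} (hg : Continuous (Function.uncurry g))
    (hpx : Continuous (Function.uncurry px)) (hpy : Continuous (Function.uncurry py))
    (hgf : ∀ x ∈ Icc (0 : ℝ) 1, ∀ y ∈ Icc (0 : ℝ) 1, g x y = f x y)
    (hx : ∀ x ∈ Icc (0 : ℝ) 1, ∀ y ∈ Icc (0 : ℝ) 1, HasDerivAt (fun t => f t y) (px x y) x)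
    (hy : ∀ x ∈ Icc (0 : ℝ) 1, ∀ y ∈ Icc (0 : ℝ) 1, HasDerivAt (fun t => f x t) (py x y) y)
    {L : ℝ} (hL : 0 < L) (S : Finset (ℕ × ℕ))
    (hS : ∀ p : ℕ × ℕ, p ∉ S → L ≤ π ^ 2 * ((p.1 : ℝ) ^ 2 + (p.2 : ℝ) ^ 2)) :
    ∫ y in (0 : ℝ)..1, ∫ x in (0 : ℝ)..1, g x y ^ 2 ≤
      L⁻¹ * (∫ y in (0 : ℝ)..1, ∫ x in (0 : ℝ)..1, (px x y ^ 2 + py x y ^ 2)) +
        ∑ p ∈ S, (∫ y in (0 : ℝ)..1, (∫ x in (0 : ℝ)..1, g x y * ck p.1 x) * ck p.2 y) ^ 2 := by
  have hc1 : ∀ {h : ℝ → ℝ → ℝ}, Continuous (Function.uncurry h) → ∀ y, Continuous fun x => h x y :=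
    fun {h} hh y => hh.comp (continuous_id.prodMk continuous_const)
  have hint : ∀ {h : ℝ → ℝ → ℝ}, Continuous (Function.uncurry h) →
      Continuous fun y => ∫ x in (0 : ℝ)..1, h x y := by
    intro h hh
    refine intervalIntegral.continuous_parametric_intervalIntegral_of_continuous'
      (f := fun y x => h x y) ?_ 0 1
    exact hh.comp (continuous_snd.prodMk continuous_fst)
  have hmulc : ∀ {h : ℝ → ℝ → ℝ}, Continuous (Function.uncurry h) → ∀ k,
      Continuous (Function.uncurry fun x y => h x y * ck k x) := by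
    intro h hh k
    exact hh.mul ((ck_cont k).comp continuous_fst)
  have hsq : ∀ {h : ℝ → ℝ → ℝ}, Continuous (Function.uncurry h) →
      Continuous (Function.uncurry fun x y => h x y ^ 2) := fun {h} hh => hh.pow 2
  obtain ⟨c, hc⟩ : ∃ c : ℕ → ℝ → ℝ, c = fun k y => ∫ x in (0 : ℝ)..1, g x y * ck k x := ⟨_, rfl⟩
  obtain ⟨d, hd⟩ : ∃ d : ℕ → ℝ → ℝ, d = fun k y => ∫ x in (0 : ℝ)..1, py x y * ck k x := ⟨_, rfl⟩
  obtain ⟨e, he⟩ : ∃ e : ℕ → ℕ → ℝ, e = fun k l => ∫ y in (0 : ℝ)..1, c k y * ck l y := ⟨_, rfl⟩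
  have hcc : ∀ k, Continuous (c k) := by
    intro k
    rw [hc]
    exact hint (hmulc hg k)
  have hdc : ∀ k, Continuous (d k) := by
    intro k
    rw [hd]
    exact hint (hmulc hpy k)
  -- the derivative of the coefficients
  have hder : ∀ k, ∀ y ∈ Icc (0 : ℝ) 1, HasDerivWithinAt (c k) (d k y) (Icc 0 1) y := by
    intro k y hyy
    have h1 : ∀ y ∈ Icc (0 : ℝ) 1, c k y = c k 0 + ∫ s in (0 : ℝ)..y, d k s := by
      intro y hyy
      have h2 : ∫ s in (0 : ℝ)..y, d k s = ∫ x in (0 : ℝ)..1, (g x y - g x 0) * ck k x := by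
        rw [hd]
        simp only
        rw [← swp (a := 0) (b := 1) (a' := 0) (b' := y) zero_le_one hyy.1 (hmulc hpy k)]
        refine intervalIntegral.integral_congr fun x hxx => ?_
        rw [uIcc_of_le zero_le_one] at hxx
        rw [intervalIntegral.integral_mul_const, intervalIntegral.integral_eq_sub_of_hasDerivAt
          (f := fun t => f x t) (f' := fun t => py x t) ?_ ?_,
          hgf x hxx y hyy, hgf x hxx 0 ⟨le_rfl, zero_le_one⟩]
        · intro t ht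
          rw [uIcc_of_le hyy.1] at ht
          exact hy x hxx t ⟨ht.1, ht.2.trans hyy.2⟩
        · exact (hpy.comp (continuous_const.prodMk continuous_id) :
            Continuous fun t => py x t).intervalIntegrable _ _
      rw [h2, hc]
      simp only
      rw [← intervalIntegral.integral_add]
      · refine intervalIntegral.integral_congr fun x _ => ?_
        ring
      · exact (hc1 (hmulc hg k) 0).intervalIntegrable _ _
      · exact (((hc1 hg y).sub (hc1 hg 0)).mul (ck_cont k)).intervalIntegrable _ _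
    have h3 : HasDerivAt (fun y => c k 0 + ∫ s in (0 : ℝ)..y, d k s) (d k y) y :=
      ((hdc k).integral_hasStrictDerivAt 0 y).hasDerivAt.const_add _
    exact h3.hasDerivWithinAt.congr h1 (h1 y hyy)
  -- Parseval
  have p1 : ∀ y, HasSum (fun k => c k y ^ 2) (∫ x in (0 : ℝ)..1, g x y ^ 2) := by
    intro y
    have := hC.1 (fun x => g x y) (hc1 hg y).continuousOn
    rw [hc]
    exact this
  have p2 : ∀ y, HasSum (fun k => d k y ^ 2) (∫ x in (0 : ℝ)..1, py x y ^ 2) := by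
    intro y
    have := hC.1 (fun x => py x y) (hc1 hpy y).continuousOn
    rw [hd]
    exact this
  have p3 : ∀ y ∈ Icc (0 : ℝ) 1, HasSum (fun k : ℕ => (π * k) ^ 2 * c k y ^ 2)
      (∫ x in (0 : ℝ)..1, px x y ^ 2) := by
    intro y hyy
    have := hC.2 (fun x => g x y) (fun x => px x y) (by
      intro x hxx
      exact (hx x hxx y hyy).hasDerivWithinAt.congr (fun t ht => hgf t ht y hyy)
        (hgf x hxx y hyy)) (hc1 hpx y).continuousOn
    rw [hc]
    exact this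
  have p4 : ∀ k, HasSum (fun l => e k l ^ 2) (∫ y in (0 : ℝ)..1, c k y ^ 2) := by
    intro k
    have := hC.1 (c k) (hcc k).continuousOn
    rw [he]
    exact this
  have p5 : ∀ k, HasSum (fun l : ℕ => (π * l) ^ 2 * e k l ^ 2) (∫ y in (0 : ℝ)..1, d k y ^ 2) := by
    intro k
    have := hC.2 (c k) (d k) (hder k) (hdc k).continuousOn
    rw [he]
    exact this
  -- for every k
  have q1 : ∀ k, L * (∫ y in (0 : ℝ)..1, c k y ^ 2) ≤
      (π * k) ^ 2 * (∫ y in (0 : ℝ)..1, c k y ^ 2) + (∫ y in (0 : ℝ)..1, d k y ^ 2) +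
        L * ∑ p ∈ S with p.1 = k, e p.1 p.2 ^ 2 := by
    intro k
    have h1 : HasSum (fun l => if (k, l) ∈ S then L * e k l ^ 2 else 0)
        (L * ∑ p ∈ S with p.1 = k, e p.1 p.2 ^ 2) := by
      have h2 : L * ∑ p ∈ S with p.1 = k, e p.1 p.2 ^ 2 =
          ∑ l ∈ (S.filter fun p => p.1 = k).image Prod.snd,
            (if (k, l) ∈ S then L * e k l ^ 2 else 0) := by
        rw [Finset.sum_image, Finset.mul_sum]
        · refine Finset.sum_congr rfl fun p hp => ?_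
          rw [Finset.mem_filter] at hp
          have h3 : (k, p.2) = p := Prod.ext hp.2.symm rfl
          rw [h3, if_pos hp.1, hp.2]
        · intro p hp q hq hpq
          have hp' := Finset.mem_filter.1 (Finset.mem_coe.1 hp)
          have hq' := Finset.mem_filter.1 (Finset.mem_coe.1 hq)
          exact Prod.ext (hp'.2.trans hq'.2.symm) hpq
      rw [h2]
      refine hasSum_sum_of_ne_finset_zero fun l hl => ?_
      rw [if_neg]
      intro h3
      exact hl (Finset.mem_image.2 ⟨(k, l), Finset.mem_filter.2 ⟨h3, rfl⟩, rfl⟩)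
    refine hasSum_le (fun l => ?_) ((p4 k).mul_left L)
      ((((p4 k).mul_left ((π * k) ^ 2)).add (p5 k)).add h1)
    have h4 : 0 ≤ e k l ^ 2 := sq_nonneg _
    by_cases h5 : (k, l) ∈ S
    · rw [if_pos h5]
      have h6 : 0 ≤ (π * k) ^ 2 * e k l ^ 2 := by positivity
      have h7 : 0 ≤ (π * l) ^ 2 * e k l ^ 2 := by positivity
      linarith
    · rw [if_neg h5, add_zero]
      have h6 := mul_le_mul_of_nonneg_right (hS (k, l) h5) h4
      refine h6.trans (le_of_eq ?_)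
      simp only
      ring
  -- the sums over k
  have i1 : ∀ {h : ℝ → ℝ → ℝ}, Continuous (Function.uncurry h) →
      Continuous fun y => ∫ x in (0 : ℝ)..1, h x y ^ 2 := fun {h} hh => hint (hsq hh)
  have q2 : ∀ n : ℕ, ∑ k ∈ Finset.range n, (π * k) ^ 2 * (∫ y in (0 : ℝ)..1, c k y ^ 2) ≤
      ∫ y in (0 : ℝ)..1, ∫ x in (0 : ℝ)..1, px x y ^ 2 := by
    intro n
    have h1 : ∑ k ∈ Finset.range n, (π * k) ^ 2 * (∫ y in (0 : ℝ)..1, c k y ^ 2) =
        ∫ y in (0 : ℝ)..1, ∑ k ∈ Finset.range n, (π * k) ^ 2 * c k y ^ 2 := by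
      rw [intervalIntegral.integral_finsetSum]
      · refine Finset.sum_congr rfl fun k _ => ?_
        rw [intervalIntegral.integral_const_mul]
      · intro k _
        exact (continuous_const.mul ((hcc k).pow 2)).intervalIntegrable _ _
    rw [h1]
    refine intervalIntegral.integral_mono_on zero_le_one ?_
      ((i1 hpx).intervalIntegrable _ _) fun y hyy => ?_
    · exact (continuous_finsetSum _ fun k _ =>
        continuous_const.mul ((hcc k).pow 2)).intervalIntegrable _ _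
    · exact sum_le_hasSum _ (fun k _ => by positivity) (p3 y hyy)
  have q3 : ∀ n : ℕ, ∑ k ∈ Finset.range n, (∫ y in (0 : ℝ)..1, d k y ^ 2) ≤
      ∫ y in (0 : ℝ)..1, ∫ x in (0 : ℝ)..1, py x y ^ 2 := by
    intro n
    rw [← intervalIntegral.integral_finsetSum]
    · refine intervalIntegral.integral_mono_on zero_le_one ?_
        ((i1 hpy).intervalIntegrable _ _) fun y _ => ?_
      · exact (continuous_finsetSum _ fun k _ => (hdc k).pow 2).intervalIntegrable _ _
      · exact sum_le_hasSum _ (fun k _ => sq_nonneg _) (p2 y)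
    · intro k _
      exact ((hdc k).pow 2).intervalIntegrable _ _
  have q4 : ∀ n : ℕ, ∑ k ∈ Finset.range n, ∑ p ∈ S with p.1 = k, e p.1 p.2 ^ 2 ≤
      ∑ p ∈ S, e p.1 p.2 ^ 2 := by
    intro n
    rw [← Finset.sum_biUnion]
    · refine Finset.sum_le_sum_of_subset_of_nonneg ?_ fun p _ _ => sq_nonneg _
      intro p hp
      rw [Finset.mem_biUnion] at hp
      obtain ⟨k, _, hk⟩ := hp
      exact (Finset.mem_filter.1 hk).1
    · intro k _ l _ hkl
      rw [Function.onFun, Finset.disjoint_left]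
      intro p h1 h2
      exact hkl ((Finset.mem_filter.1 h1).2.symm.trans (Finset.mem_filter.1 h2).2)
  obtain ⟨B, hB⟩ : ∃ B : ℝ, B = (∫ y in (0 : ℝ)..1, ∫ x in (0 : ℝ)..1, px x y ^ 2) +
      (∫ y in (0 : ℝ)..1, ∫ x in (0 : ℝ)..1, py x y ^ 2) + L * ∑ p ∈ S, e p.1 p.2 ^ 2 := ⟨_, rfl⟩
  have q5 : ∀ n : ℕ, L * ∑ k ∈ Finset.range n, (∫ y in (0 : ℝ)..1, c k y ^ 2) ≤ B := by
    intro n
    rw [Finset.mul_sum]
    refine (Finset.sum_le_sum fun k _ => q1 k).trans ?_
    rw [Finset.sum_add_distrib, Finset.sum_add_distrib, ← Finset.mul_sum, hB]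
    exact add_le_add (add_le_add (q2 n) (q3 n)) (mul_le_mul_of_nonneg_left (q4 n) hL.le)
  -- the limit
  have q6 : Tendsto (fun n : ℕ => ∑ k ∈ Finset.range n, (∫ y in (0 : ℝ)..1, c k y ^ 2)) atTop
      (𝓝 (∫ y in (0 : ℝ)..1, ∫ x in (0 : ℝ)..1, g x y ^ 2)) := by
    have h1 : ∀ n : ℕ, ∑ k ∈ Finset.range n, (∫ y in (0 : ℝ)..1, c k y ^ 2) =
        ∫ y in (0 : ℝ)..1, ∑ k ∈ Finset.range n, c k y ^ 2 := by
      intro n
      rw [intervalIntegral.integral_finsetSum]
      intro k _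
      exact ((hcc k).pow 2).intervalIntegrable _ _
    simp only [h1]
    refine intervalIntegral.tendsto_integral_filter_of_dominated_convergence
      (fun y => ∫ x in (0 : ℝ)..1, g x y ^ 2) ?_ ?_ ?_ ?_
    · exact Eventually.of_forall fun n =>
        (continuous_finsetSum _ fun k _ => (hcc k).pow 2).aestronglyMeasurable
    · refine Eventually.of_forall fun n => ae_of_all _ fun y _ => ?_
      rw [Real.norm_eq_abs, abs_of_nonneg (Finset.sum_nonneg fun k _ => sq_nonneg _)]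
      exact sum_le_hasSum _ (fun k _ => sq_nonneg _) (p1 y)
    · exact (i1 hg).intervalIntegrable _ _
    · exact ae_of_all _ fun y _ => (p1 y).tendsto_sum_nat
  have q7 : L * (∫ y in (0 : ℝ)..1, ∫ x in (0 : ℝ)..1, g x y ^ 2) ≤ B :=
    le_of_tendsto' (q6.const_mul L) q5
  have q8 : ∫ y in (0 : ℝ)..1, ∫ x in (0 : ℝ)..1, (px x y ^ 2 + py x y ^ 2) =
      (∫ y in (0 : ℝ)..1, ∫ x in (0 : ℝ)..1, px x y ^ 2) +
        ∫ y in (0 : ℝ)..1, ∫ x in (0 : ℝ)..1, py x y ^ 2 := by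
    rw [← intervalIntegral.integral_add ((i1 hpx).intervalIntegrable _ _)
      ((i1 hpy).intervalIntegrable _ _)]
    refine intervalIntegral.integral_congr fun y _ => ?_
    rw [intervalIntegral.integral_add ((hc1 (hsq hpx) y).intervalIntegrable _ _)
      ((hc1 (hsq hpy) y).intervalIntegrable _ _)]
  have q9 : ∑ p ∈ S, (∫ y in (0 : ℝ)..1, (∫ x in (0 : ℝ)..1, g x y * ck p.1 x) * ck p.2 y) ^ 2 =
      ∑ p ∈ S, e p.1 p.2 ^ 2 := by
    rw [he, hc]
  rw [q8, q9, ← mul_le_mul_iff_right₀ hL, mul_add, ← mul_assoc, mul_inv_cancel₀ hL.ne', one_mul]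
  rw [hB] at q7
  exact q7

/-- a function on the square, in the coordinates of the unit square -/
def T (r : ℝ) (F : ℂ → ℝ) (u v : ℝ) : ℝ :=
  F ⟨clp (-r) r (2 * r * u - r), clp (-r) r (2 * r * v - r)⟩

lemma T_mem {r : ℝ} (hr : 0 < r) (u v : ℝ) :
    (⟨clp (-r) r (2 * r * u - r), clp (-r) r (2 * r * v - r)⟩ : ℂ) ∈ Sq 0 r := by
  refine mem_sq ?_ ?_
  · rw [Complex.zero_re, zero_sub, zero_add]
    exact clp_mem (by linarith) _
  · rw [Complex.zero_im, zero_sub, zero_add]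
    exact clp_mem (by linarith) _

lemma T_cont {r : ℝ} (hr : 0 < r) {F : ℂ → ℝ} (hF : ContinuousOn F (Sq 0 r)) :
    Continuous (Function.uncurry (T r F)) := by
  refine hF.comp_continuous (f := fun q : ℝ × ℝ =>
    (⟨clp (-r) r (2 * r * q.1 - r), clp (-r) r (2 * r * q.2 - r)⟩ : ℂ)) ?_
    fun q => T_mem hr _ _
  exact Complex.equivRealProdCLM.symm.continuous.comp
    (((clp_cont _ _).comp ((continuous_const.mul continuous_fst).sub continuous_const)).prodMk
      ((clp_cont _ _).comp ((continuous_const.mul continuous_snd).sub continuous_const)))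

lemma T_int {r : ℝ} (hr : 0 < r) {F : ℂ → ℝ} (hF : ContinuousOn F (Sq 0 r)) :
    ∫ z in Sq 0 r, F z = (2 * r) ^ 2 * ∫ v in (0 : ℝ)..1, ∫ u in (0 : ℝ)..1, T r F u v := by
  have h0 : (2 * r) ≠ 0 := by positivity
  have e1 : 2 * r * 0 - r = -r := by ring
  have e2 : 2 * r * 1 - r = r := by ring
  have h1 : ∀ v, ∫ u in (0 : ℝ)..1, T r F u v =
      (2 * r)⁻¹ * ∫ x in (-r)..r, F ⟨clp (-r) r x, clp (-r) r (2 * r * v - r)⟩ := by
    intro v
    have := intervalIntegral.integral_comp_mul_sub (a := 0) (b := 1)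
      (fun x => F ⟨clp (-r) r x, clp (-r) r (2 * r * v - r)⟩) h0 r
    rw [e1, e2, smul_eq_mul] at this
    exact this
  have h2 : ∫ v in (0 : ℝ)..1, ∫ u in (0 : ℝ)..1, T r F u v = (2 * r)⁻¹ * ((2 * r)⁻¹ *
      ∫ y in (-r)..r, ∫ x in (-r)..r, F ⟨clp (-r) r x, clp (-r) r y⟩) := by
    simp only [h1]
    rw [intervalIntegral.integral_const_mul]
    have := intervalIntegral.integral_comp_mul_sub (a := 0) (b := 1)
      (fun y => ∫ x in (-r)..r, F ⟨clp (-r) r x, clp (-r) r y⟩) h0 r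
    rw [e1, e2, smul_eq_mul] at this
    rw [this]
  rw [h2, int_sq 0 hr hF]
  simp only [Complex.zero_re, Complex.zero_im, zero_sub, zero_add]
  field_simp

lemma norm_sq (A : ℂ →L[ℝ] ℝ) : A 1 ^ 2 + A Complex.I ^ 2 ≤ ‖A‖ ^ 2 := by
  obtain ⟨v, hv⟩ : ∃ v : ℂ, v = ⟨A 1, A Complex.I⟩ := ⟨_, rfl⟩
  have h1 : A v = A 1 ^ 2 + A Complex.I ^ 2 := by
    have h2 : v = (A 1) • (1 : ℂ) + (A Complex.I) • Complex.I := by
      rw [hv, Complex.mk_eq_add_mul_I]
      simp
    rw [h2, map_add, map_smul, map_smul, smul_eq_mul, smul_eq_mul]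
    ring
  have h3 : ‖v‖ ^ 2 = A 1 ^ 2 + A Complex.I ^ 2 := by
    rw [← Complex.normSq_eq_norm_sq, Complex.normSq_apply, hv]
    ring
  have h4 := A.le_opNorm v
  rw [h1, ← h3, Real.norm_eq_abs, abs_of_nonneg (sq_nonneg _)] at h4
  rw [← h3]
  rcases (norm_nonneg v).eq_or_lt with h5 | h5
  · rw [← h5]
    have := sq_nonneg ‖A‖
    linarith
  · have h6 : ‖v‖ ≤ ‖A‖ := by
      have : ‖v‖ * ‖v‖ ≤ ‖A‖ * ‖v‖ := by rw [← sq]; exact h4
      exact le_of_mul_le_mul_right this h5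
    exact pow_le_pow_left₀ (norm_nonneg v) h6 2

lemma fin_lat (R : ℝ) : {p : ℕ × ℕ | (p.1 : ℝ) ^ 2 + (p.2 : ℝ) ^ 2 < R}.Finite := by
  obtain ⟨n, hn⟩ := exists_nat_gt R
  refine ((Finset.range (n + 1)) ×ˢ (Finset.range (n + 1))).finite_toSet.subset ?_
  rintro ⟨a, b⟩ h
  change (a : ℝ) ^ 2 + (b : ℝ) ^ 2 < R at h
  have h1 : a ^ 2 + b ^ 2 < n := by
    have : (a : ℝ) ^ 2 + (b : ℝ) ^ 2 < n := h.trans hn
    exact_mod_cast this
  have ha : a ≤ a ^ 2 := Nat.le_self_pow (by norm_num) a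
  have hb : b ≤ b ^ 2 := Nat.le_self_pow (by norm_num) b
  rw [Finset.coe_product]
  refine ⟨?_, ?_⟩
  · rw [Finset.mem_coe, Finset.mem_range]
    omega
  · rw [Finset.mem_coe, Finset.mem_range]
    omega

/-- the functional of the pair `p` -/
def ka (r : ℝ) (p : ℕ × ℕ) (z : ℂ) : ℝ :=
  (2 * r)⁻¹ * (ck p.1 ((z.re + r) / (2 * r)) * ck p.2 ((z.im + r) / (2 * r)))

lemma ka_cont (r : ℝ) (p : ℕ × ℕ) : Continuous (ka r p) :=
  continuous_const.mul (((ck_cont _).comp ((Complex.continuous_re.add continuous_const).div_const _)).mul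
    ((ck_cont _).comp ((Complex.continuous_im.add continuous_const).div_const _)))

lemma ka_int {r : ℝ} (hr : 0 < r) (p : ℕ × ℕ) {f : ℂ → ℝ} (hf : ContinuousOn f (Sq 0 r)) :
    ∫ z in Sq 0 r, f z * ka r p z = (2 * r) * ∫ v in (0 : ℝ)..1,
      (∫ u in (0 : ℝ)..1, T r f u v * ck p.1 u) * ck p.2 v := by
  have h0 : (2 * r) ≠ 0 := by positivity
  have hcl : ∀ u ∈ Icc (0 : ℝ) 1, clp (-r) r (2 * r * u - r) = 2 * r * u - r := by
    intro u hu
    refine clp_eq ⟨?_, ?_⟩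
    · have := mul_nonneg (show 0 ≤ 2 * r by positivity) hu.1
      linarith
    · have := mul_le_mul_of_nonneg_left hu.2 (show 0 ≤ 2 * r by positivity)
      linarith
  rw [T_int hr (F := fun z => f z * ka r p z) (hf.mul (ka_cont r p).continuousOn)]
  have h1 : ∀ v ∈ Icc (0 : ℝ) 1, ∫ u in (0 : ℝ)..1, T r (fun z => f z * ka r p z) u v =
      (2 * r)⁻¹ * ((∫ u in (0 : ℝ)..1, T r f u v * ck p.1 u) * ck p.2 v) := by
    intro v hv
    rw [← intervalIntegral.integral_mul_const, ← intervalIntegral.integral_const_mul]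
    refine intervalIntegral.integral_congr fun u hu => ?_
    rw [uIcc_of_le zero_le_one] at hu
    have e1 : (2 * r * u - r + r) / (2 * r) = u := by
      field_simp
      ring
    have e2 : (2 * r * v - r + r) / (2 * r) = v := by
      field_simp
      ring
    change T r f u v * ((2 * r)⁻¹ * (ck p.1 ((clp (-r) r (2 * r * u - r) + r) / (2 * r)) *
      ck p.2 ((clp (-r) r (2 * r * v - r) + r) / (2 * r)))) =
      (2 * r)⁻¹ * (T r f u v * ck p.1 u * ck p.2 v)
    rw [hcl u hu, hcl v hv, e1, e2]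
    ring
  have h2 : ∫ v in (0 : ℝ)..1, ∫ u in (0 : ℝ)..1, T r (fun z => f z * ka r p z) u v =
      (2 * r)⁻¹ * ∫ v in (0 : ℝ)..1, (∫ u in (0 : ℝ)..1, T r f u v * ck p.1 u) * ck p.2 v := by
    rw [← intervalIntegral.integral_const_mul]
    refine intervalIntegral.integral_congr fun v hv => ?_
    rw [uIcc_of_le zero_le_one] at hv
    exact h1 v hv
  rw [h2]
  field_simp

/-- the sharp spectral inequality on a square -/
theorem t : StCos → StNeu := by
  intro hC r Λ hr hΛ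
  have h0 : (2 * r) ≠ 0 := by positivity
  have hfin := fin_lat (4 * r ^ 2 * Λ / π ^ 2)
  have : Finite {p : ℕ × ℕ // (p.1 : ℝ) ^ 2 + (p.2 : ℝ) ^ 2 < 4 * r ^ 2 * Λ / π ^ 2} :=
    hfin.to_subtype
  obtain ⟨ε, -⟩ : ∃ ε : {p : ℕ × ℕ // (p.1 : ℝ) ^ 2 + (p.2 : ℝ) ^ 2 < 4 * r ^ 2 * Λ / π ^ 2} ≃
      Fin (cN (4 * r ^ 2 * Λ / π ^ 2)), ε = Finite.equivFin _ := ⟨_, rfl⟩
  refine ⟨fun i => ka r (ε.symm i).1, fun i => (ka_cont _ _).measurable, fun i => ?_, ?_⟩
  · refine ⟨(2 * r)⁻¹ * (2 * 2), fun z => ?_⟩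
    unfold ka
    rw [abs_mul, abs_mul, abs_of_pos (show 0 < (2 * r)⁻¹ by positivity)]
    exact mul_le_mul_of_nonneg_left (mul_le_mul (ck_bdd _ _) (ck_bdd _ _) (abs_nonneg _)
      (by norm_num)) (by positivity)
  intro O f hO hsub hf
  have hfc : ContinuousOn f (Sq 0 r) := hf.continuousOn.mono hsub
  have hdf : ContinuousOn (fderiv ℝ f) (Sq 0 r) :=
    (hf.continuousOn_fderiv_of_isOpen hO le_rfl).mono hsub
  have hdiff : ∀ z ∈ Sq 0 r, HasFDerivAt f (fderiv ℝ f z) z := fun z hz =>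
    ((hf.differentiableOn one_ne_zero).differentiableAt (hO.mem_nhds (hsub hz))).hasFDerivAt
  have hd1 : ContinuousOn (fun z => fderiv ℝ f z 1) (Sq 0 r) := hdf.clm_apply continuousOn_const
  have hd2 : ContinuousOn (fun z => fderiv ℝ f z Complex.I) (Sq 0 r) :=
    hdf.clm_apply continuousOn_const
  have hcl : ∀ u ∈ Icc (0 : ℝ) 1, clp (-r) r (2 * r * u - r) = 2 * r * u - r := by
    intro u hu
    refine clp_eq ⟨?_, ?_⟩
    · have := mul_nonneg (show 0 ≤ 2 * r by positivity) hu.1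
      linarith
    · have := mul_le_mul_of_nonneg_left hu.2 (show 0 ≤ 2 * r by positivity)
      linarith
  have haff : ∀ u : ℝ, HasDerivAt (fun u : ℝ => 2 * r * u - r) (2 * r) u := by
    intro u
    have := ((hasDerivAt_id u).const_mul (2 * r)).sub_const r
    rwa [mul_one] at this
  have hmem : ∀ u ∈ Icc (0 : ℝ) 1, ∀ v ∈ Icc (0 : ℝ) 1,
      (⟨2 * r * u - r, 2 * r * v - r⟩ : ℂ) ∈ Sq 0 r := by
    intro u hu v hv
    have := T_mem hr u v
    rwa [hcl u hu, hcl v hv] at this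
  obtain ⟨S, hS⟩ : ∃ S : Finset (ℕ × ℕ), S = hfin.toFinset := ⟨_, rfl⟩
  have hSm : ∀ p, p ∈ S ↔ (p.1 : ℝ) ^ 2 + (p.2 : ℝ) ^ 2 < 4 * r ^ 2 * Λ / π ^ 2 := by
    intro p
    rw [hS, Set.Finite.mem_toFinset]
    rfl
  have hmulT : ∀ {F : ℂ → ℝ}, ContinuousOn F (Sq 0 r) →
      Continuous (Function.uncurry fun u v => 2 * r * T r F u v) := by
    intro F hF
    have : Continuous fun q : ℝ × ℝ => 2 * r * Function.uncurry (T r F) q :=
      continuous_const.mul (T_cont hr hF)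
    exact this
  have hmain := core hC (f := fun u v => f ⟨2 * r * u - r, 2 * r * v - r⟩)
    (g := T r f)
    (px := fun u v => 2 * r * T r (fun z => fderiv ℝ f z 1) u v)
    (py := fun u v => 2 * r * T r (fun z => fderiv ℝ f z Complex.I) u v)
    (T_cont hr hfc) (hmulT hd1) (hmulT hd2)
    (fun u hu v hv => by
      unfold T
      rw [hcl u hu, hcl v hv])
    (fun u hu v hv => by
      have e : T r (fun z => fderiv ℝ f z 1) u v =
          fderiv ℝ f ⟨2 * r * u - r, 2 * r * v - r⟩ 1 := by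
        unfold T
        rw [hcl u hu, hcl v hv]
      simp only [e]
      have h1 : HasDerivAt (fun t : ℝ => (⟨t, 2 * r * v - r⟩ : ℂ)) 1 (2 * r * u - r) := by
        have h2 : HasDerivAt (fun t : ℝ => (t : ℂ) + ((2 * r * v - r : ℝ) : ℂ) * Complex.I) 1
            (2 * r * u - r) := (Complex.ofRealCLM.hasDerivAt).add_const _
        refine h2.congr_of_eventuallyEq (Filter.Eventually.of_forall fun t => ?_)
        exact (Complex.mk_eq_add_mul_I t _)
      have h5 : HasDerivAt (fun t : ℝ => f ⟨t, 2 * r * v - r⟩)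
          (fderiv ℝ f ⟨2 * r * u - r, 2 * r * v - r⟩ 1) (2 * r * u - r) :=
        (hdiff _ (hmem u hu v hv)).comp_hasDerivAt (2 * r * u - r) h1
      exact (h5.comp u (haff u)).congr_deriv (mul_comm _ _))
    (fun u hu v hv => by
      have e : T r (fun z => fderiv ℝ f z Complex.I) u v =
          fderiv ℝ f ⟨2 * r * u - r, 2 * r * v - r⟩ Complex.I := by
        unfold T
        rw [hcl u hu, hcl v hv]
      simp only [e]
      have h1 : HasDerivAt (fun t : ℝ => (⟨2 * r * u - r, t⟩ : ℂ)) Complex.I (2 * r * v - r) := by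
        have h2 : HasDerivAt (fun t : ℝ => ((2 * r * u - r : ℝ) : ℂ) + (t : ℂ) * Complex.I)
            (1 * Complex.I) (2 * r * v - r) :=
          ((Complex.ofRealCLM.hasDerivAt).mul_const Complex.I).const_add _
        rw [one_mul] at h2
        refine h2.congr_of_eventuallyEq (Filter.Eventually.of_forall fun t => ?_)
        exact (Complex.mk_eq_add_mul_I _ t)
      have h5 : HasDerivAt (fun t : ℝ => f ⟨2 * r * u - r, t⟩)
          (fderiv ℝ f ⟨2 * r * u - r, 2 * r * v - r⟩ Complex.I) (2 * r * v - r) :=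
        (hdiff _ (hmem u hu v hv)).comp_hasDerivAt (2 * r * v - r) h1
      exact (h5.comp v (haff v)).congr_deriv (mul_comm _ _))
    (L := 4 * r ^ 2 * Λ) (by positivity) S (by
      intro p hp
      rw [hSm, not_lt, div_le_iff₀ (by positivity)] at hp
      linarith)
  have e1 : ∫ z in Sq 0 r, (f z) ^ 2 = (2 * r) ^ 2 * ∫ v in (0 : ℝ)..1, ∫ u in (0 : ℝ)..1,
      T r f u v ^ 2 := T_int hr (F := fun z => f z ^ 2) (hfc.pow 2)
  have e2 : ∫ v in (0 : ℝ)..1, ∫ u in (0 : ℝ)..1, ((2 * r * T r (fun z => fderiv ℝ f z 1) u v) ^ 2 +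
      (2 * r * T r (fun z => fderiv ℝ f z Complex.I) u v) ^ 2) =
      ∫ z in Sq 0 r, (fderiv ℝ f z 1 ^ 2 + fderiv ℝ f z Complex.I ^ 2) := by
    rw [T_int hr (F := fun z => fderiv ℝ f z 1 ^ 2 + fderiv ℝ f z Complex.I ^ 2)
      ((hd1.pow 2).add (hd2.pow 2)), ← intervalIntegral.integral_const_mul]
    refine intervalIntegral.integral_congr fun v _ => ?_
    rw [← intervalIntegral.integral_const_mul]
    refine intervalIntegral.integral_congr fun u _ => ?_
    simp only [T]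
    ring
  have hle : ∫ z in Sq 0 r, (fderiv ℝ f z 1 ^ 2 + fderiv ℝ f z Complex.I ^ 2) ≤
      ∫ z in Sq 0 r, ‖fderiv ℝ f z‖ ^ 2 := by
    refine setIntegral_mono_on ?_ ?_ (compact_sq 0 r).measurableSet fun z _ => norm_sq _
    · exact ((hd1.pow 2).add (hd2.pow 2)).integrableOn_compact (compact_sq 0 r)
    · exact (hdf.norm.pow 2).integrableOn_compact (compact_sq 0 r)
  have e3 : ∑ i, (∫ z in Sq 0 r, f z * ka r (ε.symm i).1 z) ^ 2 = (2 * r) ^ 2 *
      ∑ p ∈ S, (∫ v in (0 : ℝ)..1, (∫ u in (0 : ℝ)..1, T r f u v * ck p.1 u) * ck p.2 v) ^ 2 := by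
    have := Fintype.ofFinite
      {p : ℕ × ℕ // (p.1 : ℝ) ^ 2 + (p.2 : ℝ) ^ 2 < 4 * r ^ 2 * Λ / π ^ 2}
    rw [Finset.mul_sum, Finset.sum_subtype S hSm, ← Equiv.sum_comp ε.symm]
    refine Finset.sum_congr rfl fun i _ => ?_
    rw [ka_int hr _ hfc, mul_pow]
  rw [e2] at hmain
  have hfinal := mul_le_mul_of_nonneg_left (hmain.trans (add_le_add (mul_le_mul_of_nonneg_left hle
    (show 0 ≤ (4 * r ^ 2 * Λ)⁻¹ by positivity)) le_rfl)) (show 0 ≤ (2 * r) ^ 2 by positivity)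
  rw [mul_add, ← e1, ← e3, ← mul_assoc] at hfinal
  have e4 : (2 * r) ^ 2 * (4 * r ^ 2 * Λ)⁻¹ = Λ⁻¹ := by
    field_simp
    norm_num
  rw [e4] at hfinal
  exact hfinal

end Pool.Agent.Y183.QR.Neu
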